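import Mathlib

namespace Pool.Agent.Results.MP_9a9f07_nt.Semiprime

open Finset ArithmeticFunction

def S (n : ℕ) : ℤ := (sigma 1 n : ℤ) - n
def T (n : ℕ) : ℤ := (n : ℤ) - Nat.totient n

lemma pp (p j : ℕ) (hp : p.Prime) :
    T (p ^ (j + 1)) = (p : ℤ) ^ j ∧ S (p ^ (j + 1)) - T (p ^ (j + 1)) = ∑ i ∈ range j, (p : ℤ) ^ i := by
  have h1 : T (p ^ (j + 1)) = (p : ℤ) ^ j := by
    rw [T, Nat.totient_prime_pow_succ hp]
    push_cast [Nat.cast_sub hp.one_le]
    ring
  refine ⟨h1, ?_⟩
  rw [h1, S, sigma_one_apply_prime_pow hp, sum_range_succ, sum_range_succ]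
  push_cast
  ring

lemma cm (a b : ℕ) (h : a.Coprime b) :
    S (a * b) - T (a * b) = a * (S b - T b) + b * (S a - T a) + S a * S b + T a * T b ∧
    T (a * b) = a * T b + b * T a - T a * T b := by
  simp only [S, T, isMultiplicative_sigma.map_mul_of_coprime h, Nat.totient_mul h]
  push_cast
  constructor <;> ring

lemma tp (a : ℕ) (h : 1 < a) : 1 ≤ T a := by
  have := Nat.totient_lt a h
  rw [T]; omega

lemma t1 (a : ℕ) (h : 1 < a) (e : T a = 1) : a.Prime := by
  rw [T] at e
  exact (Nat.totient_eq_iff_prime (by omega)).1 (by omega)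

lemma ge (n : ℕ) : 1 < n → T n ≤ S n := by
  induction n using Nat.recOnPosPrimePosCoprime with
  | zero => omega
  | one => omega
  | prime_pow p k hp hk =>
    intro _
    obtain ⟨j, rfl⟩ : ∃ j, k = j + 1 := ⟨k - 1, by omega⟩
    have h := (pp p j hp).2
    have : 0 ≤ ∑ i ∈ range j, (p : ℤ) ^ i := by positivity
    omega
  | coprime a b ha hb h iha ihb =>
    intro _
    have h1 := (cm a b h).1
    have h2 := iha ha
    have h3 := ihb hb
    have h4 := tp a ha
    have h5 := tp b hb
    have : (0 : ℤ) ≤ a * (S b - T b) := mul_nonneg (by positivity) (by omega)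
    have : (0 : ℤ) ≤ b * (S a - T a) := mul_nonneg (by positivity) (by omega)
    nlinarith

lemma cls (n : ℕ) (hn : 1 < n) : (S n - T n = 1 → ∃ a : ℕ, n = a * a ∧ T n = a) ∧
    (S n - T n = 2 → ∃ p q : ℕ, p.Prime ∧ q.Prime ∧ p < q ∧ n = p * q ∧ T n = p + q - 1) := by
  induction n using Nat.recOnPosPrimePosCoprime with
  | zero => omega
  | one => omega
  | prime_pow p k hp hk =>
    obtain ⟨j, rfl⟩ : ∃ j, k = j + 1 := ⟨k - 1, by omega⟩
    obtain ⟨h1, h2⟩ := pp p j hp
    rw [h2, h1]
    match j with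
    | 0 => simp
    | 1 => exact ⟨fun _ => ⟨p, by ring, by ring⟩, by simp⟩
    | j + 2 =>
      have : 0 ≤ ∑ i ∈ range j, (p : ℤ) ^ (i + 1 + 1) := by positivity
      have := hp.two_le
      rw [sum_range_succ', sum_range_succ']
      simp only [zero_add, pow_one, pow_zero]
      constructor <;> intro <;> omega
  | coprime a b ha hb h _ _ =>
    obtain ⟨h1, h0⟩ := cm a b h
    have h2 := ge a ha
    have h3 := ge b hb
    have h4 := tp a ha
    have h5 := tp b hb
    have h6 : (0 : ℤ) ≤ a * (S b - T b) := mul_nonneg (by positivity) (by omega)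
    have h7 : (0 : ℤ) ≤ b * (S a - T a) := mul_nonneg (by positivity) (by omega)
    have h8 : 1 ≤ S a * S b := by nlinarith
    have h9 : 1 ≤ T a * T b := by nlinarith
    refine ⟨fun e => by omega, fun e => ?_⟩
    have e1 : T a * T b = 1 := by omega
    have ea : T a = 1 := by nlinarith
    have eb : T b = 1 := by nlinarith
    rw [h0, ea, eb]
    rcases lt_trichotomy a b with c | c | c
    · exact ⟨a, b, t1 a ha ea, t1 b hb eb, c, rfl, by ring⟩
    · subst c; simp at h; omega
    · exact ⟨b, a, t1 b hb eb, t1 a ha ea, c, mul_comm _ _, by ring⟩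

lemma semi (p q : ℕ) (hp : p.Prime) (hq : q.Prime) :
    S (p * q) - T (p * q) = 1 ∨ S (p * q) - T (p * q) = 2 := by
  by_cases e : p = q
  · subst e
    left
    simpa [pow_succ] using (pp p 1 hp).2
  · right
    have a := pp p 0 hp
    have b := pp q 0 hq
    simp only [zero_add, pow_one, pow_zero, range_zero, sum_empty] at a b
    have sa : S p = 1 := by omega
    have sb : S q = 1 := by omega
    rw [(cm p q ((Nat.coprime_primes hp hq).2 e)).1, sa, sb, a.1, b.1]
    ring

theorem result (n : ℕ) (hn : 1 < n) (h1 : Nat.totient (n + 12) = Nat.totient n + 12)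
    (h2 : sigma 1 (n + 12) = sigma 1 n + 12)
    (h : ∃ p q : ℕ, p.Prime ∧ q.Prime ∧ (n = p * q ∨ n + 12 = p * q)) :
    ∃ p : ℕ, p.Prime ∧ (p + 2).Prime ∧ (p + 6).Prime ∧ (p + 8).Prime ∧ n = p * (p + 8) := by
  have eS : S (n + 12) = S n := by simp only [S, h2]; push_cast; ring
  have eT : T (n + 12) = T n := by simp only [T, h1]; push_cast; ring
  have hD : S n - T n = 1 ∨ S n - T n = 2 := by
    obtain ⟨p, q, hp, hq, e | e⟩ := h
    · rw [e]; exact semi p q hp hq
    · rw [← eS, ← eT, e]; exact semi p q hp hq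
  rcases hD with e | e
  · obtain ⟨a, a1, a2⟩ := (cls n hn).1 e
    obtain ⟨b, b1, b2⟩ := (cls (n + 12) (by omega)).1 (by rw [eS, eT, e])
    have : a = b := by omega
    subst this
    omega
  · obtain ⟨p, q, hp, hq, c1, a1, a2⟩ := (cls n hn).2 e
    obtain ⟨r, s, hr, hs, c2, b1, b2⟩ := (cls (n + 12) (by omega)).2 (by rw [eS, eT, e])
    have e1 : p + q = r + s := by omega
    have e2 : r * s = p * q + 12 := by omega
    have c3 : p < r := by
      by_contra hc
      obtain ⟨x, rfl⟩ : ∃ x, p = r + x := ⟨p - r, by omega⟩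
      obtain rfl : s = q + x := by omega
      nlinarith
    obtain ⟨x, rfl⟩ : ∃ x, r = p + (x + 1) := ⟨r - p - 1, by omega⟩
    obtain ⟨y, rfl⟩ : ∃ y, s = p + (x + 1) + (y + 1) := ⟨s - (p + (x + 1)) - 1, by omega⟩
    obtain rfl : q = p + 2 * (x + 1) + (y + 1) := by omega
    have e3 : (x + 1) * (x + y + 2) = 12 := by nlinarith
    have hx : x ≤ 2 := by nlinarith
    have ev : ∀ t : ℕ, t.Prime → t % 2 = 0 → t = 2 := fun t ht h0 =>
      (ht.eq_two_or_odd).resolve_right (by omega)
    interval_cases x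
    · obtain rfl : y = 10 := by omega
      rcases Nat.mod_two_eq_zero_or_one p with c | c
      · obtain rfl := ev p hp c; norm_num at hq
      · have := ev _ hr (by omega); have := hp.two_le; omega
    · obtain rfl : y = 3 := by omega
      exact ⟨p, hp, hr, hs, hq, a1⟩
    · obtain rfl : y = 0 := by omega
      rcases Nat.mod_two_eq_zero_or_one p with c | c
      · obtain rfl := ev p hp c; norm_num at hq
      · have := ev _ hr (by omega); omega

end Pool.Agent.Results.MP_9a9f07_nt.Semiprime
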